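import Pool.Agent.Y468.SR.Iso
import Pool.Agent.R800.IR.Irr

/-!
# Diagrams which cannot be reduced (concordances without triple points)

The proof of `iso_words` is the one of `iso_movie` in `Pool.Agent.Y468.SR.Iso`.
-/

set_option autoImplicit false

namespace Pool.Agent.L5helper60.MD

open Pool.Agent.Y468.SR Pool.Agent.R800.IR

set_option linter.unusedSimpArgs false

variable {k₁ k₂ : List Pass}

theorem iso_words (hG : Good [(k₁, 0)] (bar k₂)) (h₂ : Classical [(k₂, 0)])
    (hT : Term [(k₁, 0)] (bar k₂)) (hl : k₂.length ≤ k₁.length) :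
    ∃ (m : ℕ → ℕ) (x y : List Pass), (∀ p ∈ k₁, ∀ q ∈ k₁, m p.crossing = m q.crossing →
      p.crossing = q.crossing) ∧ k₁.map (ren m) = x ++ y ∧ k₂ = y ++ x := by
  classical
  obtain ⟨-, m, hm, hN, hT⟩ := hT
  have hmem := ren_mem h₂ hm hT
  have w1 : WF k₁ := by simpa [wf_iff] using wf_iff.1 hG.cl.1
  have w2 : WF k₂ := by simpa [wf_iff] using wf_iff.1 h₂.1
  have hperm : (k₁.map (ren m)).Perm k₂ :=
    (List.subperm_of_subset (ren_nodup hG hm) (fun r hr => by
      obtain ⟨p, hp, rfl⟩ := List.mem_map.1 hr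
      exact hmem p hp)).perm_of_length_le (by simpa using hl)
  have hinv : ∀ p ∈ k₁, m (m p.crossing) = p.crossing := fun p hp =>
    matching_invol hm (by simp [hp])
  -- the crossings of `k₂` are matched with those of `k₁`
  have hsurj : ∀ q ∈ k₂, ∃ p ∈ k₁, m q.crossing = p.crossing ∧ q.crossing = m p.crossing := by
    intro q hq
    obtain ⟨p, hp, rfl⟩ := List.mem_map.1 (hperm.symm.subset hq)
    exact ⟨p, hp, hinv p hp, rfl⟩
  have hdisj : ∀ q ∈ k₂, ∀ p ∈ k₁, p.crossing ≠ q.crossing := by
    intro q hq p hp h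
    obtain ⟨p', hp', h1, h2⟩ := hsurj q hq
    exact hT p' (by simp [hp']) p (by simp [hp]) (by rw [h, ← h2])
  obtain ⟨x, y, hx, hy⟩ := rot hperm w2.2 (fun G _ o u => by
    obtain ⟨O, hO⟩ : ∃ O : (ℕ → G) → ℕ → G, O = fun o x =>
      if ∃ p ∈ k₁, p.crossing = x then o (m x) else (o x)⁻¹ := ⟨_, rfl⟩
    have hO1 : ∀ o, ∀ p ∈ k₁, O o p.crossing = o (m p.crossing) := by
      intro o p hp
      rw [hO]; exact if_pos ⟨p, hp, rfl⟩
    have hO2 : ∀ o, ∀ q ∈ k₂, O o q.crossing = (o q.crossing)⁻¹ := by
      intro o q hq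
      rw [hO]; exact if_neg (by rintro ⟨p, hp, h⟩; exact hdisj q hq p hp h)
    have hv : Valid (passes [(k₁, 0)] ++ bar k₂) m (O o) (O u) := by
      intro r hr
      rcases List.mem_append.1 hr with hr | hr
      · simp only [passes_cons, passes_nil, List.append_nil] at hr
        have h1 := hmem r hr
        have h2 : ∀ o : ℕ → G, O o (m r.crossing) = (O o r.crossing)⁻¹ := by
          intro o
          rw [hO1 o r hr]; exact hO2 o _ h1
        exact ⟨fun h => absurd h (hT r (by simp [hr]) r (by simp [hr])),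
          fun _ => ⟨h2 o, h2 u⟩⟩
      · have h0 := mem_bar.1 hr
        obtain ⟨p, hp, h1, h2⟩ := hsurj _ h0
        have h1' : m r.crossing = p.crossing := h1
        have h2' : r.crossing = m p.crossing := h2
        have h3 : ∀ o : ℕ → G, O o (m r.crossing) = (O o r.crossing)⁻¹ := by
          intro o
          have h4 : O o r.crossing = (o r.crossing)⁻¹ := hO2 o (flp r) h0
          rw [h1', hO1 o p hp, h4, h2', inv_inv]
        refine ⟨fun h => ?_, fun _ => ⟨h3 o, h3 u⟩⟩
        exact absurd (h1'.symm.trans h) (hdisj _ h0 p hp)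
    have h4 := (hN G (O o) (O u) hv (k₁, 0) (by simp)).2 rfl
    have h5 : ∀ w : List Pass, (∀ p ∈ w, p ∈ k₁) →
        wval (O o) (O u) w = wval o u (w.map (ren m)) := by
      intro w hw
      induction w with
      | nil => rfl
      | cons p w ih =>
        rw [wval_cons, List.map_cons, wval_cons, ih fun q hq => hw q (by simp [hq])]
        congr 1
        unfold val
        rw [hO1 o p (hw p (by simp)), hO1 u p (hw p (by simp))]
        rfl
    have h6 : ∀ w : List Pass, (∀ p ∈ w, p ∈ k₂) →
        wval (O o) (O u) (bar w) = (wval o u w)⁻¹ := by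
      intro w hw
      rw [wval_bar]
      congr 1
      refine wval_congr fun q hq => ?_
      unfold val
      simp only [hO2 o q (hw q hq), hO2 u q (hw q hq), inv_inv]
    simp only at h4
    rw [h5 k₁ fun _ h => h, h6 k₂ fun _ h => h] at h4
    exact h4)
  exact ⟨m, x, y, fun p hp q hq h => by rw [← hinv p hp, ← hinv q hq, h], hx, hy⟩

/-- the doubled diagram of two knots joined by a movie without moves of type III -/
theorem good_of_movie (h₁ : Classical [(k₁, 0)]) (h₂ : Classical [(k₂, 0)])
    {births : Bool} (h : Movie false births [(k₁, 0)] [(k₂, 0)]) :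
    Good [(k₁.map (ren fun n => 2 * n), 0)] (bar (k₂.map (ren fun n => 2 * n + 1))) ∧
      Classical [(k₁.map (ren fun n => 2 * n), 0)] ∧
      Classical [(k₂.map (ren fun n => 2 * n + 1), 0)] := by
  have i1 : Function.Injective fun n : ℕ => 2 * n := fun a b h => by simp only at h; omega
  have i2 : Function.Injective fun n : ℕ => 2 * n + 1 := fun a b h => by simp only at h; omega
  have w2 : WF k₂ := by simpa [wf_iff] using wf_iff.1 h₂.1
  have c1 := classical_ren i1 h₁
  have c2 := classical_ren i2 h₂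
  have we : WF (bar (k₂.map (ren fun n => 2 * n + 1))) :=
    (WF.ren w2 fun p _ q _ h => by omega).bar
  have hodd : ∀ p ∈ bar (k₂.map (ren fun n => 2 * n + 1)), p.crossing % 2 = 1 := by
    intro p hp
    obtain ⟨q, hq, h⟩ := List.mem_map.1 (mem_bar.1 hp)
    have : p.crossing = 2 * q.crossing + 1 := (congrArg Pass.crossing h).symm
    omega
  obtain ⟨κ, ⟨C, hC, hκ⟩, hI⟩ := dbl_movie h we hodd ⟨0, ⟨(k₂, 0), by simp, rfl⟩, inv_base w2⟩
  rw [List.mem_singleton] at hC
  subst hC
  simp only at hκ
  subst hκ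
  refine ⟨⟨c1, by simp, ⟨_, List.mem_singleton.2 rfl, rfl⟩, ?_, hI⟩, c1, c2⟩
  have := wf_dbl (D := [(k₁, 0)]) (κ := 0) h₁.1 we hodd
  rw [wf_iff, passes_snoc] at this
  exact this

/-- an irreducible diagram has the least number of crossings -/
theorem irr_length_le (h₁ : Classical [(k₁, 0)]) (h₂ : Classical [(k₂, 0)]) (hI : Irr k₁)
    {births : Bool} (h : Movie false births [(k₁, 0)] [(k₂, 0)]) : k₁.length ≤ k₂.length := by
  have i1 : Function.Injective fun n : ℕ => 2 * n := fun a b h => by simp only at h; omega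
  obtain ⟨hG, c1, c2⟩ := good_of_movie h₁ h₂ h
  have := length_le hG c2 (term_of_irr hG (irr_ren i1 hI))
  simpa using this

/-- if the first diagram cannot be shortened by a movie without births and moves of type III, and
the second is not longer, then they are the same diagram up to names and the starting point -/
theorem same_of_least (h₁ : Classical [(k₁, 0)]) (h₂ : Classical [(k₂, 0)])
    (hm : ∀ w, Movie false false [(k₁, 0)] [(w, 0)] → k₁.length ≤ w.length)
    (hl : k₂.length ≤ k₁.length) {births : Bool} (h : Movie false births [(k₁, 0)] [(k₂, 0)]) :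
    ∃ f : ℕ → ℕ, (∀ p ∈ k₁, ∀ q ∈ k₁, f p.crossing = f q.crossing → p.crossing = q.crossing) ∧
      (k₁.map (ren f)).IsRotated k₂ := by
  obtain ⟨hG, c1, c2⟩ := good_of_movie h₁ h₂ h
  have s1 : Step false false [(k₁, 0)] [(k₁.map (ren fun n => 2 * n), 0)] :=
    Step.rename (fun n => 2 * n) [(k₁, 0)] fun p _ q _ h => by omega
  have hT : Term [(k₁.map (ren fun n => 2 * n), 0)] (bar (k₂.map (ren fun n => 2 * n + 1))) := by
    rcases reduceKnot hG with hT | ⟨w, hw, hM, -⟩
    · exact hT
    · exfalso
      have := hm w (Movie.head h₁ c1 s1 hM)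
      rw [List.length_map] at hw
      omega
  obtain ⟨m, x, y, hinj, hx, hy⟩ := iso_words hG c2 hT (by simpa using hl)
  refine ⟨fun n => (m (2 * n) - 1) / 2, fun p hp q hq hpq => ?_, ?_⟩
  · -- the values of `m` are odd
    have hodd : ∀ p ∈ k₁, ∃ n, m (2 * p.crossing) = 2 * n + 1 := by
      intro p hp
      have h1 : ren m (ren (fun n => 2 * n) p) ∈ k₂.map (ren fun n => 2 * n + 1) := by
        have h2 : ren m (ren (fun n => 2 * n) p) ∈ x ++ y := by
          rw [← hx]
          exact List.mem_map_of_mem (List.mem_map_of_mem hp)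
        rw [hy, List.mem_append]
        exact (List.mem_append.1 h2).symm
      obtain ⟨q, -, h2⟩ := List.mem_map.1 h1
      exact ⟨q.crossing, (congrArg Pass.crossing h2).symm⟩
    obtain ⟨a, ha⟩ := hodd p hp
    obtain ⟨b, hb⟩ := hodd q hq
    simp only [ha, hb] at hpq
    have h3 : m (2 * p.crossing) = m (2 * q.crossing) := by omega
    have h4 := hinj (ren (fun n => 2 * n) p) (List.mem_map_of_mem hp)
      (ren (fun n => 2 * n) q) (List.mem_map_of_mem hq) h3
    simp only [ren] at h4
    omega
  · have e1 : k₁.map (ren fun n => (m (2 * n) - 1) / 2) =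
        (x ++ y).map (ren fun n => (n - 1) / 2) := by
      rw [← hx, List.map_map, List.map_map]
      rfl
    have e2 : k₂ = (y ++ x).map (ren fun n => (n - 1) / 2) := by
      rw [← hy, List.map_map]
      conv_lhs => rw [← List.map_id k₂]
      refine List.map_congr_left fun p _ => ?_
      simp [ren]
    rw [e1, e2, List.map_append, List.map_append]
    exact List.isRotated_append

end Pool.Agent.L5helper60.MD
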