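import Pool.Agent.R800.AN.Main

/-!
# Cobordisms with inessential handles

Cobordisms between knots whose double curves meeting the knots have free triple points only, or
cross evenly, and which may have handles: a component may be cut into two components bounding the
same piece of the remaining surface, one of which passes only through crossings with colours in `Z`
(double curves not meeting the knots). Such a cobordism can be replaced by concordances to a common
lower bound. The proofs extend those of `cmovie_inv`, `common_of_cmovie` in `Pool.Agent.R800.AN` and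
of `wmovie_del`, `common_of_conc` in `Pool.Agent.Y874.TP4.Conc` (no handles).
-/

set_option autoImplicit false

namespace Pool.Agent.L5helper60.MD

set_option linter.unusedSimpArgs false
set_option linter.unusedVariables false

open Pool.Agent.Y468.SR
open Pool.Agent.Y874.TP hiding S_REID S_REN S_THREE S_OUT S_CUT S_JUNC CStep CReid CM InvM InvC Inv3
open Pool.Agent.Y874.TP2
open Pool.Agent.Y874.TP2.T3
open Pool.Agent.Y874.TP2.T4 (del de dw cstep_del wf_del del_cons dw_eq_nil dw_append enc_del de_append
  de_two_keep de_two_swap enc_inj triAt_crossing mem_three del_eq)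
open Pool.Agent.R800.TP Pool.Agent.R800.AN

variable {Z : ℕ → Prop}

/-- `EMovie Z E D T`: a movie of classical links from `D` to `E`, births of components being allowed.
Triple points of the projection (moves of type III) are of two kinds: either at least two of the
three double curves through the triple point have colours in `Z`, or the three double curves have
colours outside `Z`. `T` is the list of the triples of colours of the double curves at the triple
points of the second kind: the colour of the crossing of the top and the middle strand, of the top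
and the bottom strand, and of the middle and the bottom strand. There are no other conditions on
triple points. The colours (names of the double curves) are kept by all steps; branch points (moves
of type I) are allowed on double curves of even colours only. The surfaces may have handles: a
component may be cut into two components of the boundary of the same piece of surface, one of which
passes only through crossings with colours in `Z`. -/
inductive EMovie (Z : ℕ → Prop) (E : Code) : Code → List (ℕ × ℕ × ℕ) → Prop
  | refl (h : Classical E) : EMovie Z E E []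
  | step {D D' : Code} {T : List (ℕ × ℕ × ℕ)} (h : Classical D) (hs : CStep D D')
      (hm : EMovie Z E D' T) : EMovie Z E D T
  | three {D D' : Code} {T : List (ℕ × ℕ × ℕ)} (h : Classical D) (A B C F : List (Pass ⊕ ℕ))
      (X Y W t m b : Pass × Pass) (x y z : ℕ) (hT : TriAt x y z t m b)
      (hP : List.Perm [X, Y, W] [t, m, b])
      (hD : enc D = A ++ two X.1 X.2 ++ B ++ two Y.1 Y.2 ++ C ++ two W.1 W.2 ++ F)
      (hD' : enc D' = A ++ two X.2 X.1 ++ B ++ two Y.2 Y.1 ++ C ++ two W.2 W.1 ++ F)
      (hZ : ¬Z (colour x) ∧ ¬Z (colour y) ∧ ¬Z (colour z))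
      (hm : EMovie Z E D' T) : EMovie Z E D ((colour x, colour y, colour z) :: T)
  | inner {D D' : Code} {T : List (ℕ × ℕ × ℕ)} (h : Classical D) (A B C F : List (Pass ⊕ ℕ))
      (X Y W t m b : Pass × Pass) (x y z : ℕ) (hT : TriAt x y z t m b)
      (hP : List.Perm [X, Y, W] [t, m, b])
      (hD : enc D = A ++ two X.1 X.2 ++ B ++ two Y.1 Y.2 ++ C ++ two W.1 W.2 ++ F)
      (hD' : enc D' = A ++ two X.2 X.1 ++ B ++ two Y.2 Y.1 ++ C ++ two W.2 W.1 ++ F)
      (hZ : Z (colour x) ∧ Z (colour y) ∨ Z (colour x) ∧ Z (colour z) ∨ Z (colour y) ∧ Z (colour z))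
      (hm : EMovie Z E D' T) : EMovie Z E D T
  | handle {R : Code} {T : List (ℕ × ℕ × ℕ)} (x y : List Pass) (b : ℕ)
      (h : Classical ((x ++ y, b) :: R)) (hy : ∀ p ∈ y, Z (colour p.crossing))
      (hm : EMovie Z E ((x, b) :: (y, b) :: R) T) : EMovie Z E ((x ++ y, b) :: R) T

/-- The classical knots with Gauss codes `k` and `k'` are joined by a cobordism with inessential
handles whose double curves meeting the knots cross evenly: the crossings of `k` and `k'` are renamed
(by `f` and `g`) in order to get names telling the double curves (colours), `Z` is a set of double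
curves not meeting the knots, such that at each triple point at least two or none of the three double
curves belong to `Z`; each handle cuts off a component passing only through crossings with colours in
`Z`; every curve of the preimage of the double curves has at most two ends on the two knots, and any
two different curves of the preimage with ends on the knots cross one another an even number of times
at the triple points of the second kind. -/
def EvenCob (k k' : List Pass) : Prop :=
  Classical [(k, 0)] ∧ Classical [(k', 0)] ∧ ∃ (f g : ℕ → ℕ) (Z : ℕ → Prop)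
    (T : List (ℕ × ℕ × ℕ)), Function.Injective f ∧ Function.Injective g ∧
    (∀ p ∈ k.map (ren f) ++ k'.map (ren g), ¬Z (colour p.crossing)) ∧
    EMovie Z (renamed g [(k', 0)]) (renamed f [(k, 0)]) T ∧
    (∀ κ, ((k.map (ren f) ++ k'.map (ren g)).map ends).count κ ≤ 2) ∧
    ∀ p ∈ k.map (ren f) ++ k'.map (ren g), ∀ q ∈ k.map (ren f) ++ k'.map (ren g),
      ends p ≠ ends q → Even ((T.flatMap crs).count s(ends p, ends q))

theorem emovie_classical {E D : Code} {T : List (ℕ × ℕ × ℕ)} (h : EMovie Z E D T) :
    Classical D := by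
  cases h with
  | refl h => exact h
  | step h _ _ => exact h
  | three h => exact h
  | inner h => exact h
  | handle _ _ _ h => exact h

theorem emovie_inv (hreid : S_REID) (hren : S_REN) (hthree : S_THREE) {E D : Code}
    {T : List (ℕ × ℕ × ℕ)} (h : EMovie Z E D T) {e : List Pass} (he : WF e)
    (hodd : ∀ p ∈ e, IsOd p.crossing)
    (hE : ∃ κ, (∃ C ∈ del Z E, C.2 = κ) ∧ InvB (renamed ev (del Z E) ++ [(e, κ)]) []) :
    ∃ κ Ts, (∃ C ∈ del Z D, C.2 = κ) ∧ InvB (renamed ev (del Z D) ++ [(e, κ)]) Ts ∧
      Ts.map sig = T.map fun t => (t, (true, true, true)) := by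
  induction h with
  | refl h =>
    obtain ⟨κ, h1, h2⟩ := hE
    exact ⟨κ, [], h1, h2, rfl⟩
  | @step D D' T hD hs hm ih =>
    obtain ⟨κ', Ts, h0, h1, h2⟩ := ih
    rcases cstep_del (Z := Z) hs with h | h
    · obtain ⟨κ, hκ, hS⟩ := cstep_dbl h hodd h0
      obtain ⟨Ts', k1, k2⟩ := cstep_liftB hreid hren (wf_dbl' (wf_del hD.1) he hodd)
        (wf_dbl' (wf_del (emovie_classical hm).1) he hodd) hS h1
      exact ⟨κ, Ts', hκ, k1, k2.trans h2⟩
    · exact ⟨κ', Ts, by rw [h]; exact h0, by rw [h]; exact h1, h2⟩
  | @three D D' T hD A B C F X Y W t m b x y z hT hP hE hE' hZ hm ih =>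
    obtain ⟨κ, Ts, h0, h1, h2⟩ := ih
    obtain ⟨c1, c2, c3⟩ := triAt_crossing hT
    have key : ∀ {u v : ℕ} {q : Pass × Pass}, ¬Z (colour u) → ¬Z (colour v) →
        (q.1.crossing = u ∧ q.2.crossing = v ∨ q.1.crossing = v ∧ q.2.crossing = u) →
        ¬Z (colour q.1.crossing) ∧ ¬Z (colour q.2.crossing) := by
      intro u v q hu hv hq
      rcases hq with ⟨e1, e2⟩ | ⟨e1, e2⟩ <;> rw [e1, e2] <;> exact ⟨by assumption, by assumption⟩
    obtain ⟨⟨x1, x2⟩, ⟨y1, y2⟩, w1, w2⟩ := mem_three hP (P := fun q : Pass × Pass =>
      ¬Z (colour q.1.crossing) ∧ ¬Z (colour q.2.crossing)) (key hZ.1 hZ.2.1 c1)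
      (key hZ.1 hZ.2.2 c2) (key hZ.2.1 hZ.2.2 c3)
    have f1 : enc (del Z D) = de Z A ++ two X.1 X.2 ++ de Z B ++ two Y.1 Y.2 ++ de Z C ++
        two W.1 W.2 ++ de Z F := by
      rw [enc_del, hE]; simp only [de_append, de_two_keep x1 x2, de_two_keep y1 y2, de_two_keep w1 w2]
    have f2 : enc (del Z D') = de Z A ++ two X.2 X.1 ++ de Z B ++ two Y.2 Y.1 ++ de Z C ++
        two W.2 W.1 ++ de Z F := by
      rw [enc_del, hE']; simp only [de_append, de_two_keep x2 x1, de_two_keep y2 y1,
        de_two_keep w2 w1]
    have hl : (del Z D).map Prod.snd = (del Z D').map Prod.snd := by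
      rw [← rl_enc, ← rl_enc, f1, f2]; simp
    have et : ∀ p q, eren ev (two p q) = two (ren ev p) (ren ev q) := fun _ _ => rfl
    have ea : ∀ X Y, eren ev (X ++ Y) = eren ev X ++ eren ev Y := fun _ _ => List.map_append
    have hP' : List.Perm [(ren ev X.1, ren ev X.2), (ren ev Y.1, ren ev Y.2),
        (ren ev W.1, ren ev W.2)] [(ren ev t.1, ren ev t.2), (ren ev m.1, ren ev m.2),
        (ren ev b.1, ren ev b.2)] := hP.map (fun q : Pass × Pass => (ren ev q.1, ren ev q.2))
    obtain ⟨T', k1, k2⟩ := three_lift (D := renamed ev (del Z D) ++ [(e, κ)])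
      (D' := renamed ev (del Z D') ++ [(e, κ)]) (A := eren ev (de Z A)) (B := eren ev (de Z B))
      (C := eren ev (de Z C)) (E := eren ev (de Z F) ++ enc [(e, κ)]) hthree (triAt_ren ev_inj hT) hP'
      (by rw [enc_append, enc_renamed, f1]; simp only [ea, et, List.append_assoc])
      (by rw [enc_append, enc_renamed, f2]; simp only [ea, et, List.append_assoc]) h1
    refine ⟨κ, T' :: Ts, ?_, k1, ?_⟩
    · obtain ⟨C, hC, hh⟩ := h0
      have : C.2 ∈ (del Z D).map Prod.snd := by rw [hl]; exact List.mem_map_of_mem hC
      obtain ⟨C', hC', h'⟩ := List.mem_map.1 this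
      exact ⟨C', hC', by rw [h', hh]⟩
    · rw [List.map_cons, List.map_cons, k2, h2, colour_ev, colour_ev, colour_ev]
  | @inner D D' T hD A B C F X Y W t m b x y z hT hP hE hE' hZ hm ih =>
    obtain ⟨c1, c2, c3⟩ := triAt_crossing hT
    have key : ∀ {u v : ℕ} {q : Pass × Pass}, (Z (colour u) ∨ Z (colour v)) →
        (q.1.crossing = u ∧ q.2.crossing = v ∨ q.1.crossing = v ∧ q.2.crossing = u) →
        Z (colour q.1.crossing) ∨ Z (colour q.2.crossing) := by
      intro u v q hu hq
      rcases hq with ⟨e1, e2⟩ | ⟨e1, e2⟩ <;> rw [e1, e2]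
      · exact hu
      · exact hu.symm
    obtain ⟨x1, y1, w1⟩ := mem_three hP (P := fun q : Pass × Pass =>
      Z (colour q.1.crossing) ∨ Z (colour q.2.crossing)) (key (by tauto) c1)
      (key (by tauto) c2) (key (by tauto) c3)
    have e : del Z D = del Z D' := by
      refine enc_inj ?_
      rw [enc_del, enc_del, hE, hE']
      simp only [de_append, de_two_swap x1, de_two_swap y1, de_two_swap w1]
    rw [e]
    exact ih
  | @handle R T x y b hD hy hm ih =>
    obtain ⟨κ, Ts, h0, h1, h2⟩ := ih
    have hw := wf_dbl' (κ := κ) (wf_del (Z := Z) (emovie_classical hm).1) he hodd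
    rw [del_cons, del_cons, dw_eq_nil hy] at h0 h1 hw
    rw [del_cons, dw_append, dw_eq_nil hy, List.append_nil]
    have e2 : renamed ev ((dw Z x, b) :: ([], b) :: del Z R) ++ [(e, κ)] =
        ((dw Z x).map (ren ev), b) :: ([], b) :: (renamed ev (del Z R) ++ [(e, κ)]) := rfl
    have e0 : renamed ev ((dw Z x, b) :: del Z R) ++ [(e, κ)] =
        ((dw Z x).map (ren ev), b) :: (renamed ev (del Z R) ++ [(e, κ)]) := rfl
    rw [e2] at h1 hw
    have hw' : WF (passes (([], b) :: ((dw Z x).map (ren ev), b) ::
        (renamed ev (del Z R) ++ [(e, κ)]))) := by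
      simpa [passes] using hw
    have hw'' : WF (passes (((dw Z x).map (ren ev), b) ::
        (renamed ev (del Z R) ++ [(e, κ)]))) := by
      simpa [passes] using hw
    obtain ⟨Ts₁, k1, k2⟩ := cstep_liftB hreid hren hw' hw
      (.perm _ _ (List.Perm.swap _ _ _)) h1
    obtain ⟨Ts₂, k3, k4⟩ := cstep_liftB hreid hren hw'' hw'
      (.birth b _ ⟨((dw Z x).map (ren ev), b), by simp, rfl⟩) k1
    refine ⟨κ, Ts₂, ?_, by rw [e0]; exact k3, (k4.trans k2).trans h2⟩
    obtain ⟨C, hC, hκ⟩ := h0
    rcases List.mem_cons.1 hC with rfl | hC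
    · exact ⟨_, List.mem_cons_self, hκ⟩
    · rcases List.mem_cons.1 hC with rfl | hC
      · exact ⟨(dw Z x, b), List.mem_cons_self, hκ⟩
      · exact ⟨C, List.mem_cons_of_mem _ hC, hκ⟩

theorem common_of_emovie {Z : ℕ → Prop} {k₁ k₂ : List Pass} {T : List (ℕ × ℕ × ℕ)}
    (c2 : Classical [(k₂, 0)]) (hM : EMovie Z [(k₂, 0)] [(k₁, 0)] T)
    (hZ : ∀ p ∈ k₁ ++ k₂, ¬Z (colour p.crossing))
    (hc : ∀ κ, ((k₁ ++ k₂).map ends).count κ ≤ 2)
    (he : ∀ p ∈ k₁ ++ k₂, ∀ q ∈ k₁ ++ k₂, ends p ≠ ends q →
      Even ((T.flatMap crs).count s(ends p, ends q))) :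
    ∃ j, Movie false false [(k₁, 0)] [(j, 0)] ∧ Movie false false [(k₂, 0)] [(j, 0)] := by
  have c1 := emovie_classical hM
  have w1 : WF k₁ := by simpa [wf_iff] using wf_iff.1 c1.1
  have w2 : WF k₂ := by simpa [wf_iff] using wf_iff.1 c2.1
  have we : WF (bar (k₂.map (ren od))) := (WF.ren w2 fun p _ q _ h => od_inj h).bar
  have hodd : ∀ p ∈ bar (k₂.map (ren od)), IsOd p.crossing := by
    intro p hp
    obtain ⟨q, hq, h⟩ := List.mem_map.1 (mem_bar.1 hp)
    have : p.crossing = od q.crossing := (congrArg Pass.crossing h).symm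
    rw [this]
    exact isOd_od _
  have d1 : del Z [(k₁, 0)] = [(k₁, 0)] := del_eq fun p hp => hZ p (by
    simp only [passes_cons, passes_nil, List.append_nil] at hp
    exact List.mem_append_left _ hp)
  have d2 : del Z [(k₂, 0)] = [(k₂, 0)] := del_eq fun p hp => hZ p (by
    simp only [passes_cons, passes_nil, List.append_nil] at hp
    exact List.mem_append_right _ hp)
  obtain ⟨κ, Ts, h0, hI, hs⟩ := emovie_inv RD.reid RN.ren TH.three hM we hodd
    ⟨0, by rw [d2]; exact ⟨(k₂, 0), by simp, rfl⟩, by rw [d2]; exact invB_base w2 0⟩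
  rw [d1] at h0 hI
  obtain ⟨C, hC, h0⟩ := h0
  rw [List.mem_singleton] at hC
  subst hC
  simp only at h0
  subst h0
  have hI' : InvB (ann (k₁.map (ren ev)) (bar (k₂.map (ren od)))) Ts := hI
  obtain ⟨m, hm⟩ := hI'.inv
  have hW : WF (k₁.map (ren ev) ++ bar (k₂.map (ren od))) := by
    have := wf_dbl' (D := [(k₁, 0)]) (κ := 0) (wf_iff.1 c1.1) we hodd
    rw [passes_snoc] at this
    simpa [passes_renamed] using this
  obtain ⟨hm₁, hN⟩ := nullR_mt hI' hm hW (fun κ => by rw [(map_kap k₁ k₂).count_eq]; exact hc κ)
    (fun p hp q hq hpq => by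
      obtain ⟨p', hp', e1⟩ := mem_kap hp
      obtain ⟨q', hq', e2⟩ := mem_kap hq
      rw [e1, e2, tprs_all hs]
      exact he p' hp' q' hq' (by rw [← e1, ← e2]; exact hpq))
  exact common_of_inv c1 c2 (inv_of_nullR (by simp) ⟨_, List.mem_singleton.2 rfl, rfl⟩ hm₁ hN)


theorem common_of_evenCob {k k' : List Pass} (h : EvenCob k k') :
    ∃ j, Movie false false [(k, 0)] [(j, 0)] ∧ Movie false false [(k', 0)] [(j, 0)] := by
  obtain ⟨hk, hk', f, g, Z, T, hf, hg, hZ, hM, hc, he⟩ := h
  have c1 := classical_ren hf hk
  have c2 := classical_ren hg hk'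
  obtain ⟨j, j1, j2⟩ := common_of_emovie c2 hM hZ hc he
  have s1 : Step false false [(k, 0)] [(k.map (ren f), 0)] :=
    Step.rename f [(k, 0)] fun p _ q _ h => hf h
  have s2 : Step false false [(k', 0)] [(k'.map (ren g), 0)] :=
    Step.rename g [(k', 0)] fun p _ q _ h => hg h
  exact ⟨j, Movie.head hk c1 s1 j1, Movie.head hk' c2 s2 j2⟩

theorem emovie_of_cmovie {E D : Code} {T : List (ℕ × ℕ × ℕ)} (hM : CMovie Z E D T) :
    EMovie Z E D T := by
  induction hM with
  | refl h => exact .refl h
  | step h hs _ ih => exact .step h hs ih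
  | three h A B C F X Y W t m b x y z hT hP hD hD' hZ _ ih =>
    exact .three h A B C F X Y W t m b x y z hT hP hD hD' hZ ih
  | inner h A B C F X Y W t m b x y z hT hP hD hD' hZ _ ih =>
    exact .inner h A B C F X Y W t m b x y z hT hP hD hD' hZ ih

theorem evenCob_of_evenConc {k k' : List Pass} (h : EvenConc k k') : EvenCob k k' := by
  obtain ⟨hk, hk', f, g, Z, T, hf, hg, hZ, hM, hc, he⟩ := h
  exact ⟨hk, hk', f, g, Z, T, hf, hg, hZ, emovie_of_cmovie hM, hc, he⟩

/-- The steps of a movie with births, keeping the colours (names of the double curves), in which a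
move of type III (triple point) is allowed only if at least two of the three colours of its crossings
are in `Z`, and in which a component may be cut into two components of the boundary of the same piece
of surface (a handle), if one of them passes only through crossings with colours in `Z`. -/
inductive HStep (Z : ℕ → Prop) : Code → Code → Prop
  | step {D D' : Code} (hs : Pool.Agent.Y874.TP4.FStep Z D D') : HStep Z D D'
  | handle (x y : List Pass) (b : ℕ) (R : Code) (hy : ∀ p ∈ y, Z (colour p.crossing)) :
      HStep Z ((x ++ y, b) :: R) ((x, b) :: (y, b) :: R)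

/-- a movie of classical links with such steps -/
def HMovie (Z : ℕ → Prop) : Code → Code → Prop :=
  Relation.ReflTransGen fun D D' => Classical D ∧ Classical D' ∧ HStep Z D D'

/-- The classical knots with Gauss codes `k` and `k'` are joined by a cobordism such that, for some
set of double curves of its projection containing all double curves meeting `k` or `k'` (those with
colours not in `Z`), at most one of the three double curves (branches) through each triple point
belongs to this set, and each handle cuts off a component passing only through other crossings. The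
crossings of `k` and `k'` are renamed (by `f` and `g`) in order to get names telling the double
curve. -/
def FreeCob (k k' : List Pass) : Prop :=
  Classical [(k, 0)] ∧ Classical [(k', 0)] ∧ ∃ (f g : ℕ → ℕ) (Z : ℕ → Prop),
    Function.Injective f ∧ Function.Injective g ∧ (∀ p ∈ k, ¬Z (colour (f p.crossing))) ∧
    (∀ p ∈ k', ¬Z (colour (g p.crossing))) ∧ HMovie Z (renamed f [(k, 0)]) (renamed g [(k', 0)])

theorem freeCob_of_conc {k k' : List Pass} (h : Pool.Agent.Y874.TP4.Conc k k') : FreeCob k k' := by
  obtain ⟨hk, hk', f, g, Z, hf, hg, hZ, hZ', hM⟩ := h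
  exact ⟨hk, hk', f, g, Z, hf, hg, hZ, hZ', Relation.ReflTransGen.mono (fun _ _ h => ⟨h.1, h.2.1, .step h.2.2⟩) _ _ hM⟩

open Pool.Agent.Y874.TP2.T4 (WMovie wmovie_del common_of_wmovie)

theorem wmovie_hdel {D D' : Code} (h : HMovie Z D D') : WMovie (del Z D) (del Z D') := by
  induction h with
  | refl => exact .refl
  | @tail D₁ D₂ _ h ih =>
    obtain ⟨h1, h2, h3⟩ := h
    cases h3 with
    | step hs => exact ih.trans (wmovie_del (Relation.ReflTransGen.single ⟨h1, h2, hs⟩))
    | handle x y b R hy =>
      have w2 := wf_del (Z := Z) h2.1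
      rw [del_cons, del_cons, dw_eq_nil hy] at w2 ⊢
      rw [del_cons, dw_append, dw_eq_nil hy, List.append_nil] at ih
      have w1 : WF (passes (([], b) :: (dw Z x, b) :: del Z R)) := by
        simpa [passes] using w2
      have w0 : WF (passes ((dw Z x, b) :: del Z R)) := by
        simpa [passes] using w2
      exact (ih.tail ⟨wf_iff.2 w0, wf_iff.2 w1, .birth rfl b _ ⟨(dw Z x, b), by simp, rfl⟩⟩).tail
        ⟨wf_iff.2 w1, wf_iff.2 w2, .perm _ _ (List.Perm.swap _ _ _)⟩

theorem common_of_freeCob {k k' : List Pass} (h : FreeCob k k') :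
    ∃ j, Movie false false [(k, 0)] [(j, 0)] ∧ Movie false false [(k', 0)] [(j, 0)] := by
  obtain ⟨hk, hk', f, g, Z, hf, hg, hZ, hZ', hM⟩ := h
  have e1 : ∀ (f : ℕ → ℕ) (k : List Pass), renamed f [(k, 0)] = [(k.map (ren f), 0)] :=
    fun _ _ => rfl
  rw [e1, e1] at hM
  have c1 := classical_ren hf hk
  have c2 := classical_ren hg hk'
  have d1 : del Z [(k.map (ren f), 0)] = [(k.map (ren f), 0)] := by
    refine del_eq fun p hp => ?_
    simp only [passes_cons, passes_nil, List.append_nil, List.mem_map] at hp
    obtain ⟨q, hq, rfl⟩ := hp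
    exact hZ q hq
  have d2 : del Z [(k'.map (ren g), 0)] = [(k'.map (ren g), 0)] := by
    refine del_eq fun p hp => ?_
    simp only [passes_cons, passes_nil, List.append_nil, List.mem_map] at hp
    obtain ⟨q, hq, rfl⟩ := hp
    exact hZ' q hq
  have hW := wmovie_hdel hM
  rw [d1, d2] at hW
  obtain ⟨j, j1, j2⟩ := common_of_wmovie c1 c2 hW
  have s1 : Step false false [(k, 0)] [(k.map (ren f), 0)] :=
    Step.rename f [(k, 0)] fun p _ q _ h => hf h
  have s2 : Step false false [(k', 0)] [(k'.map (ren g), 0)] :=
    Step.rename g [(k', 0)] fun p _ q _ h => hg h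
  exact ⟨j, Movie.head hk c1 s1 j1, Movie.head hk' c2 s2 j2⟩

end Pool.Agent.L5helper60.MD
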